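import Pool.Agent.T2H20.AH.Hc

/-!
# The exceptions of the abc conjecture at all heights, ordered by radical

At most `C X ^ (4/7 + δ)` abc-triples with `rad (abc) ≤ X`, of any height, violate
`c ≤ κ rad (abc) ^ (1 + ε)`. More generally, at most `C X ^ (max (4/7, 1 - M) + ε)` triples with
`rad (abc) ≤ X`, of any height, have `c ≥ κ rad (abc) ^ M`, and for `1/3 < M ≤ 3/7` the exponent
`1 - M` is exact.

The triples with `c ≤ rad (abc) ^ K` are counted by the theorems of the starting library on the abc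
triples with `rad (abc) ≤ c ^ λ`, and the triples with `c ≥ rad (abc) ^ K`, `K = K (ε)`, without any
bound for the height, by the square root bound at all heights (helper files `T2H20/AH`; the method
is two `p`-adic logarithms, interpolation determinants, Hölder's inequality for approximate groups,
and sunflowers).
-/

set_option autoImplicit false

namespace Pool.Agent.Results.MP_7aad9f_nt.AllHeightsProfile

open Pool.Agent.T2H20.AH Filter Topology

/-- the radical: the product of the distinct primes dividing `n` -/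
def radical (n : ℕ) : ℕ := ∏ p ∈ n.primeFactors, p

/-- the triples `(a, b, a + b)`, written `(a, b)`, `1 ≤ a ≤ b`, `a` and `b` coprime, with
`rad (abc) ≤ X` and `c ≥ κ rad (abc) ^ M`; there is no restriction on the size of `c = a + b` -/
def exceptions (κ M X : ℝ) : Set (ℕ × ℕ) :=
  {t | (0 < t.1 ∧ t.1 ≤ t.2 ∧ Nat.Coprime t.1 t.2) ∧
    (radical (t.1 * t.2 * (t.1 + t.2)) : ℝ) ≤ X ∧
    κ * (radical (t.1 * t.2 * (t.1 + t.2)) : ℝ) ^ M ≤ ((t.1 + t.2 : ℕ) : ℝ)}

/-- the triples `(a, b, a + b)` as above with `rad (abc) ≤ X`, of any height, which violate the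
inequality `c ≤ κ rad (abc) ^ (1 + ε)` of the abc conjecture -/
def counterexamples (κ ε X : ℝ) : Set (ℕ × ℕ) :=
  {t | (0 < t.1 ∧ t.1 ≤ t.2 ∧ Nat.Coprime t.1 t.2) ∧
    (radical (t.1 * t.2 * (t.1 + t.2)) : ℝ) ≤ X ∧
    ¬ ((t.1 + t.2 : ℕ) : ℝ) ≤ κ * (radical (t.1 * t.2 * (t.1 + t.2)) : ℝ) ^ (1 + ε)}

theorem counterexamples_subset (κ ε X : ℝ) : counterexamples κ ε X ⊆ ExcC κ (1 + ε) X :=
  fun _ h => ⟨h.1, h.2.1, (not_le.1 h.2.2).le⟩

/-- **Theorem.** (1) For all `κ > 0`, `ε ≥ 0`, `δ > 0` there is `C` such that for every `X ≥ 1` the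
set of all the counterexamples to `c ≤ κ rad (abc) ^ (1 + ε)` with `rad (abc) ≤ X`, of whatever
height, is finite and has at most `C X ^ (4/7 + δ)` elements. (2) For all `κ, M, ε > 0` there is `C`
such that at most `C X ^ (max (4/7, 1 - M) + ε)` triples with `rad (abc) ≤ X`, of whatever height,
have `c ≥ κ rad (abc) ^ M`. (3) For `1/3 < M < 1/2` there are at least `X ^ (1 - M - ε)` of them for
all large `X`. (4) For `1/3 < M ≤ 3/7` their number is `X ^ (1 - M + o (1))`. -/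
theorem result :
    (∀ κ ε δ : ℝ, 0 < κ → 0 ≤ ε → 0 < δ → ∃ C : ℝ, ∀ X : ℝ, 1 ≤ X →
      (counterexamples κ ε X).Finite ∧
      ((counterexamples κ ε X).ncard : ℝ) ≤ C * X ^ (4 / 7 + δ)) ∧
    (∀ κ M ε : ℝ, 0 < κ → 0 < M → 0 < ε → ∃ C : ℝ, ∀ X : ℝ, 1 ≤ X →
      (exceptions κ M X).Finite ∧
      ((exceptions κ M X).ncard : ℝ) ≤ C * X ^ (max (4 / 7) (1 - M) + ε)) ∧
    (∀ κ M ε : ℝ, 0 < κ → 1 / 3 < M → M < 1 / 2 → 0 < ε → ∃ X₀ : ℝ, ∀ X : ℝ, X₀ ≤ X →
      X ^ (1 - M - ε) ≤ ((exceptions κ M X).ncard : ℝ)) ∧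
    (∀ κ M : ℝ, 0 < κ → 1 / 3 < M → M ≤ 3 / 7 →
      Tendsto (fun X : ℝ => Real.log ((exceptions κ M X).ncard : ℝ) / Real.log X) atTop
        (𝓝 (1 - M))) := by
  refine ⟨fun κ ε δ hκ hε hδ => ?_, fun κ M ε hκ hM hε => ?_, fun κ M ε hκ hM hM1 hε => ?_,
    fun κ M hκ hM hM1 => ?_⟩
  · obtain ⟨C, -, h⟩ := profC_upper κ (1 + ε) δ hκ (by linarith) hδ
    rw [max_eq_left (by linarith : 1 - (1 + ε) ≤ 4 / 7)] at h
    refine ⟨C, fun X hX => ⟨(excC_finite κ (1 + ε) hX).subset (counterexamples_subset _ _ _),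
      le_trans ?_ (h X hX)⟩⟩
    exact_mod_cast Set.ncard_le_ncard (counterexamples_subset _ _ _) (excC_finite κ (1 + ε) hX)
  · obtain ⟨C, -, h⟩ := profC_upper κ M ε hκ hM hε
    exact ⟨C, fun X hX => ⟨excC_finite _ _ hX, h X hX⟩⟩
  · exact profC_lower hκ hM hM1 hε
  · exact profC_tendsto hκ hM hM1

end Pool.Agent.Results.MP_7aad9f_nt.AllHeightsProfile
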