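import Pool.Agent.T2H21.NE.Transfer

/-!
# The abc conjecture is decided by thin sets of triples of Euclidean signature

For each of the signatures (3,3,3), (2,4,4), (2,3,6) and each `δ > 0` there is a set of abc triples
whose members are, in some order, `x ^ p`, `y ^ q`, `d * z ^ r` with `d ≤ c ^ δ`, which has
`O(X ^ δ)` members with `c ≤ X`, and such that the abc conjecture for this set implies the abc
conjecture for all triples, with a linear loss in `ε`.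
-/

set_option autoImplicit false

namespace Pool.Agent.Results.MP_7aad9f_nt.EuclideanSignatures

open Pool.Agent.T2H21.NE

/-- the radical -/
def R (m : ℕ) : ℕ := ∏ p ∈ m.primeFactors, p

/-- the abc triples -/
def Triples : Set (ℕ × ℕ × ℕ) :=
  {t | 0 < t.1 ∧ 0 < t.2.1 ∧ Nat.Coprime t.1 t.2.1 ∧ t.1 + t.2.1 = t.2.2}

/-- the abc inequality with exponent `1 + ε` on the set `S` -/
def Ineq (ε : ℝ) (S : Set (ℕ × ℕ × ℕ)) : Prop :=
  ∃ κ : ℝ, ∀ a b c : ℕ, (a, b, c) ∈ S → (c : ℝ) ≤ κ * (R (a * b * c) : ℝ) ^ (1 + ε)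

theorem ineq_mono {ε ε' : ℝ} (h : ε ≤ ε') {S : Set (ℕ × ℕ × ℕ)} (hS : Ineq ε S) : Ineq ε' S := by
  obtain ⟨κ, hκ⟩ := hS
  refine ⟨max κ 0, fun a b c habc => (hκ a b c habc).trans ?_⟩
  have h1 : (1 : ℝ) ≤ R (a * b * c) := by exact_mod_cast R_pos _
  have h2 : (R (a * b * c) : ℝ) ^ (1 + ε) ≤ (R (a * b * c) : ℝ) ^ (1 + ε') :=
    Real.rpow_le_rpow_of_exponent_le h1 (by linarith)
  calc κ * (R (a * b * c) : ℝ) ^ (1 + ε) ≤ max κ 0 * (R (a * b * c) : ℝ) ^ (1 + ε) := by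
        gcongr
        exact le_max_left _ _
    _ ≤ _ := by gcongr

/-- every abc triple gives a signed triple to start from -/
theorem start {a b c : ℕ} (h : (a, b, c) ∈ Triples) :
    ∃ T, Init T ∧ ht T = c ∧ rad T = R (a * b * c) := by
  obtain ⟨ha, hb, hco, habc⟩ := h
  simp only at ha hb hco habc
  rcases Nat.even_or_odd c with hc | hc
  · have hodd : Odd a := by
      by_contra hne
      rw [Nat.not_odd_iff_even] at hne
      have h2 : 2 ∣ a := hne.two_dvd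
      have h2' : 2 ∣ b := (Nat.dvd_add_right h2).1 (by rw [habc]; exact hc.two_dvd)
      have := Nat.dvd_gcd h2 h2'
      rw [hco] at this
      omega
    refine ⟨((c : ℤ), -(b : ℤ), (a : ℤ)), ⟨⟨?_, ?_, ?_, ?_, ?_⟩, ?_⟩, ?_, ?_⟩
    · simp only
      omega
    · simp only
      omega
    · simp only
      omega
    · simp only
      omega
    · simp only
      refine IsCoprime.neg_right ?_
      rw [Nat.isCoprime_iff_coprime, ← habc]
      exact (Nat.coprime_add_self_left).2 hco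
    · simp only
      exact_mod_cast hodd
    · simp only [ht, Int.natAbs_natCast, Int.natAbs_neg]
      omega
    · simp only [rad, Int.natAbs_natCast, Int.natAbs_neg, Int.natAbs_mul]
      unfold Pool.Agent.T2H21.NE.R R
      rw [show c * b * a = a * b * c by ring]
  · refine ⟨((a : ℤ), (b : ℤ), (c : ℤ)), ⟨⟨?_, ?_, ?_, ?_, ?_⟩, ?_⟩, ?_, ?_⟩
    · simp only
      omega
    · simp only
      omega
    · simp only
      omega
    · simp only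
      omega
    · simp only
      rw [Nat.isCoprime_iff_coprime]
      exact hco
    · simp only
      exact_mod_cast hc
    · simp only [ht, Int.natAbs_natCast]
      omega
    · simp only [rad, Int.natAbs_natCast, Int.natAbs_mul]
      rfl

/-- the general theorem for one family -/
theorem family (p q r s n : ℕ) (Fam : ℤ → ℤ × ℤ × ℤ → Prop) (hs : 1 ≤ s) (hn : 1 ≤ n)
    (hch : ∀ k : ℕ, ∃ (E : ℕ) (K : ℝ), (n + 1) ^ k ≤ E + 1 ∧ 1 ≤ K ∧ ∀ T, Init T →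
      ∃ e T', Fam e T' ∧ |(e : ℝ)| ≤ K * (ht T : ℝ) ^ s ∧ Step E K T T')
    (hnear : ∀ e T, Fam e T → Good T ∧ ∃ x y z : ℕ,
      [T.1.natAbs, T.2.1.natAbs, T.2.2.natAbs].Perm [x ^ p, y ^ q, e.natAbs * z ^ r])
    (δ : ℝ) (hδ : 0 < δ) :
    ∃ S ⊆ Triples,
      (∀ a b c : ℕ, (a, b, c) ∈ S → ∃ x y z d : ℕ,
        [a, b, c].Perm [x ^ p, y ^ q, d * z ^ r] ∧ (d : ℝ) ≤ (c : ℝ) ^ δ) ∧
      (∃ κ : ℝ, ∀ X : ℕ, 1 ≤ X → ({t ∈ S | t.2.2 ≤ X}.ncard : ℝ) ≤ κ * (X : ℝ) ^ δ) ∧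
      (∃ η : ℝ, 0 < η ∧ ∀ ε : ℝ, 0 < ε → ε ≤ 1 → Ineq (η * ε) S → Ineq ε Triples) ∧
      ((∀ ε : ℝ, 0 < ε → Ineq ε S) ↔ ∀ ε : ℝ, 0 < ε → Ineq ε Triples) := by
  obtain ⟨k, hk⟩ : ∃ k : ℕ, (s + 1 : ℝ) / δ < ((n + 1 : ℕ) : ℝ) ^ k := by
    refine pow_unbounded_of_one_lt _ ?_
    have : 1 < n + 1 := by omega
    exact_mod_cast this
  obtain ⟨E, K, hEk, hK, hmap⟩ := hch k
  have hEδ : (s + 1 : ℝ) ≤ (E + 1) * δ := by
    rw [div_lt_iff₀ hδ] at hk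
    refine hk.le.trans ?_
    gcongr
    exact_mod_cast hEk
  have hKpos : (0 : ℝ) < K := by linarith
  choose! e φ hF he hst using hmap
  have hcond : ∀ T, Init T → K ^ (1 + δ) < ht T → |(e T : ℝ)| ≤ (ht (φ T) : ℝ) ^ δ := by
    intro T hT hsm
    have hh1 : (1 : ℝ) ≤ ht T := by exact_mod_cast ht_pos hT.1
    exact height_cond hK hδ hEδ hh1 hsm (he T hT) (hst T hT).1
  set S : Set (ℕ × ℕ × ℕ) := (fun T => pos (φ T)) '' {T | Init T ∧ K ^ (1 + δ) < (ht T : ℝ)} with hS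
  have hgood : ∀ T, Init T → Good (φ T) := fun T hT => (hnear _ _ (hF T hT)).1
  have hsub : S ⊆ Triples := by
    rintro t ⟨T, ⟨hT, -⟩, rfl⟩
    obtain ⟨h1, h2, h3, h4, -, -, -⟩ := pos_spec (hgood T hT)
    exact ⟨h1, h2, h3, h4⟩
  have htrans : ∀ ε : ℝ, 0 < ε → Ineq (ε / (1 + (1 + ε) * E)) S → Ineq ε Triples := by
    rintro ε hε ⟨κ, hκ⟩
    obtain ⟨κ', hκ'⟩ := transfer_ineq (δ := δ) hK hε φ hst ⟨κ, by
      intro T hT hsm
      obtain ⟨h1, h2, h3, h4, h5, h6, -⟩ := pos_spec (hgood T hT)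
      have := hκ (pos (φ T)).1 (pos (φ T)).2.1 (pos (φ T)).2.2 ⟨T, ⟨hT, hsm⟩, rfl⟩
      rw [← h5, ← h6]
      exact this⟩
    refine ⟨κ', ?_⟩
    intro a b c habc
    obtain ⟨T, hT, hT1, hT2⟩ := start habc
    have := hκ' T hT
    rwa [hT1, hT2] at this
  refine ⟨S, hsub, ?_, ?_, ?_, ?_⟩
  · rintro a b c ⟨T, ⟨hT, hsm⟩, habc⟩
    obtain ⟨-, x, y, z, hxyz⟩ := hnear _ _ (hF T hT)
    obtain ⟨h1, h2, h3, h4, h5, h6, h7⟩ := pos_spec (hgood T hT)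
    have hc := hcond T hT hsm
    simp only at habc
    rw [habc] at h5 h7
    refine ⟨x, y, z, (e T).natAbs, h7.trans hxyz, ?_⟩
    simp only at h5
    rw [natAbs_cast, h5]
    exact hc
  · refine ⟨9 * K ^ δ, ?_⟩
    intro X hX
    have hX1 : (1 : ℝ) ≤ X := by exact_mod_cast hX
    have hXpos : (0 : ℝ) < X := by linarith
    set M : ℝ := (K * X) ^ (1 / (E + 1 : ℝ)) with hM
    have hE1 : (0 : ℝ) < E + 1 := by positivity
    have hKX : (1 : ℝ) ≤ K * X := by nlinarith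
    have hM1 : (1 : ℝ) ≤ M := Real.one_le_rpow hKX (by positivity)
    have hMle : ∀ T, Init T → ht (φ T) ≤ X → ht T ≤ ⌊M⌋₊ := by
      intro T hT hX'
      refine Nat.le_floor ?_
      have h1 := (hst T hT).1
      have h2 : (ht T : ℝ) ^ (E + 1) ≤ K * X := h1.trans (by gcongr)
      calc (ht T : ℝ) = ((ht T : ℝ) ^ (E + 1)) ^ (1 / (E + 1 : ℝ)) := by
            rw [← Real.rpow_natCast, ← Real.rpow_mul (Nat.cast_nonneg _)]
            push_cast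
            rw [mul_one_div_cancel hE1.ne', Real.rpow_one]
        _ ≤ M := by
            rw [hM]
            gcongr
    obtain ⟨hf, hcard⟩ := count_init ⌊M⌋₊
    have hsubX : {t ∈ S | t.2.2 ≤ X} ⊆ (fun T => pos (φ T)) '' {T | Init T ∧ ht T ≤ ⌊M⌋₊} := by
      rintro t ⟨⟨T, ⟨hT, hsm⟩, rfl⟩, ht'⟩
      refine ⟨T, ⟨hT, hMle T hT ?_⟩, rfl⟩
      obtain ⟨h1, h2, h3, h4, h5, h6, -⟩ := pos_spec (hgood T hT)
      rw [← h5]
      exact ht'
    have hn1 : {t ∈ S | t.2.2 ≤ X}.ncard ≤ (2 * ⌊M⌋₊ + 1) ^ 2 :=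
      (Set.ncard_le_ncard hsubX (hf.image _)).trans ((Set.ncard_image_le hf).trans hcard)
    have hfl : ((⌊M⌋₊ : ℕ) : ℝ) ≤ M := Nat.floor_le (by linarith)
    have hδ2 : 2 / (E + 1 : ℝ) ≤ δ := by
      rw [div_le_iff₀ hE1]
      have : (1 : ℝ) ≤ s := by exact_mod_cast hs
      nlinarith
    calc (({t ∈ S | t.2.2 ≤ X}.ncard : ℕ) : ℝ) ≤ (((2 * ⌊M⌋₊ + 1) ^ 2 : ℕ) : ℝ) := by
          exact_mod_cast hn1
      _ = (2 * ((⌊M⌋₊ : ℕ) : ℝ) + 1) ^ 2 := by push_cast; ring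
      _ ≤ (2 * M + M) ^ 2 := by gcongr
      _ = 9 * M ^ 2 := by ring
      _ = 9 * (K * X) ^ (2 / (E + 1 : ℝ)) := by
          rw [hM, ← Real.rpow_natCast, ← Real.rpow_mul (by positivity)]
          congr 2
          push_cast
          ring
      _ ≤ 9 * (K * X) ^ δ := by gcongr
      _ = _ := by
          rw [Real.mul_rpow hKpos.le hXpos.le]
          ring
  · refine ⟨1 / (1 + 2 * E), by positivity, ?_⟩
    intro ε hε hε1 hi
    refine htrans ε hε (ineq_mono ?_ hi)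
    have hE0 : (0 : ℝ) ≤ E := Nat.cast_nonneg _
    rw [one_div_mul_eq_div]
    gcongr
    linarith
  · constructor
    · intro h ε hε
      refine htrans ε hε (h _ (by positivity))
    · intro h ε hε
      obtain ⟨κ, hκ⟩ := h ε hε
      exact ⟨κ, fun a b c habc => hκ a b c (hsub habc)⟩

/-- **Theorem.** -/
theorem result (p q r : ℕ) (hpqr : (p, q, r) ∈ [(3, 3, 3), (2, 4, 4), (2, 3, 6)])
    (δ : ℝ) (hδ : 0 < δ) :
    ∃ S ⊆ Triples,
      (∀ a b c : ℕ, (a, b, c) ∈ S → ∃ x y z d : ℕ,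
        [a, b, c].Perm [x ^ p, y ^ q, d * z ^ r] ∧ (d : ℝ) ≤ (c : ℝ) ^ δ) ∧
      (∃ κ : ℝ, ∀ X : ℕ, 1 ≤ X → ({t ∈ S | t.2.2 ≤ X}.ncard : ℝ) ≤ κ * (X : ℝ) ^ δ) ∧
      (∃ η : ℝ, 0 < η ∧ ∀ ε : ℝ, 0 < ε → ε ≤ 1 → Ineq (η * ε) S → Ineq ε Triples) ∧
      ((∀ ε : ℝ, 0 < ε → Ineq ε S) ↔ ∀ ε : ℝ, 0 < ε → Ineq ε Triples) := by
  simp only [List.mem_cons, Prod.mk.injEq, List.not_mem_nil, or_false] at hpqr
  rcases hpqr with ⟨rfl, rfl, rfl⟩ | ⟨rfl, rfl, rfl⟩ | ⟨rfl, rfl, rfl⟩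
  · refine family 3 3 3 6 3 Fam33 (by norm_num) (by norm_num)
      (chain Init Fam33 6 5 3 4096 8 (by norm_num) (by norm_num) base33 step33) ?_ δ hδ
    rintro e T ⟨⟨hg, -⟩, x, y, z, hx, hy, hz⟩
    refine ⟨hg, x.natAbs, y.natAbs, z.natAbs, ?_⟩
    rw [hx, hy, hz, Int.natAbs_pow, Int.natAbs_pow, Int.natAbs_mul, Int.natAbs_pow]
  · refine family 2 4 4 4 1 Fam44 (by norm_num) (by norm_num)
      (chain Init Fam44 4 3 1 512 8 (by norm_num) (by norm_num) base44 step44) ?_ δ hδ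
    rintro e T ⟨⟨hg, -⟩, x, y, z, hx, hy, hz⟩
    refine ⟨hg, z.natAbs, x.natAbs, y.natAbs, ?_⟩
    rw [hx, hy, hz, Int.natAbs_pow, Int.natAbs_pow, Int.natAbs_mul, Int.natAbs_pow]
    exact (List.perm_append_comm (l₁ := [z.natAbs ^ 2])
      (l₂ := [x.natAbs ^ 4, e.natAbs * y.natAbs ^ 4])).symm
  · refine family 2 3 6 6 2 Fam36 (by norm_num) (by norm_num)
      (chain Init Fam36 6 5 2 622080 1215 (by norm_num) (by norm_num) base36 step36) ?_ δ hδ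
    rintro e T ⟨⟨hg, -⟩, x, y, z, hx, hy, hz⟩
    refine ⟨hg, z.natAbs, x.natAbs, y.natAbs, ?_⟩
    rw [hx, hy, hz, Int.natAbs_pow, Int.natAbs_pow, Int.natAbs_mul, Int.natAbs_pow]
    exact (List.perm_append_comm (l₁ := [z.natAbs ^ 2])
      (l₂ := [x.natAbs ^ 3, e.natAbs * y.natAbs ^ 6])).symm

end Pool.Agent.Results.MP_7aad9f_nt.EuclideanSignatures
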