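import Mathlib
import Pool.Agent.T2H21.PM.Main

/-!
# MP_7aad9f_nt (abc conjecture): triples with one prescribed member

Every `n ≥ 1` with `R(n) ≤ (log X) ^ (1/40)` is a member of at least
`exp((log log X) ^ 2 / 200)` triples whose largest member exceeds the radical by a factor
`exp((log log X) ^ 2 / 200)`.  The second member `m` runs over integers in `(√X, X]`, and the
larger of `m` and `n` is the largest member of the triple.  In particular this applies to `n = 1`
(consecutive integers) and to `n = 2 ^ k` as the largest member.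
-/

set_option autoImplicit false

namespace Pool.Agent.Results.MP_7aad9f_nt.PrescribedMember

/-- The radical of `m`: the product of the primes dividing `m`. -/
def R (m : ℕ) : ℕ := ∏ p ∈ m.primeFactors, p

/-- The integers `m` in `(√X, X]` for which `m`, `n` and their difference form an abc triple
whose largest member is more than `exp((log log X) ^ 2 / 200)` times its radical. -/
def good (X n : ℕ) : Set ℕ :=
  {m : ℕ | √(X : ℝ) < m ∧ m ≤ X ∧ ∃ a b c : ℕ, 0 < a ∧ 0 < b ∧ Nat.Coprime a b ∧ a + b = c ∧
    ((a = n ∧ c = m) ∨ (a = m ∧ c = n)) ∧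
    (R (a * b * c) : ℝ) * Real.exp ((Real.log (Real.log X)) ^ 2 / 200) < c}

theorem result :
    ∃ X₀ : ℕ, ∀ X : ℕ, X₀ ≤ X → ∀ n : ℕ, 1 ≤ n →
      (R n : ℝ) ≤ (Real.log X) ^ (1 / 40 : ℝ) →
      Real.exp ((Real.log (Real.log X)) ^ 2 / 200) ≤ ((good X n).ncard : ℝ) := by
  obtain ⟨X₀, h⟩ := Pool.Agent.T2H21.PM.main_pm
  refine ⟨X₀, fun X hX n hn hR => ?_⟩
  obtain ⟨S, hS1, hS2⟩ := h X hX n hn hR
  have hfin : (good X n).Finite :=
    (Set.finite_Iic X).subset fun m hm => hm.2.1
  have hsub : (S : Set ℕ) ⊆ good X n := fun m hm => hS2 m (Finset.mem_coe.1 hm)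
  have hcard : S.card ≤ (good X n).ncard := by
    rw [← Set.ncard_coe_finset]
    exact Set.ncard_le_ncard hsub hfin
  exact hS1.trans (by exact_mod_cast hcard)

end Pool.Agent.Results.MP_7aad9f_nt.PrescribedMember
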