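import Pool.Agent.T2H21.RS.AllH

/-!
# The abc conjecture for the triples supported on a random set of primes

Let `γ > 0` and let `S` be a random set of odd primes: the events `p ∈ S` are independent, and their
probabilities are `p ^ (-γ)`. We consider the abc triples `(a, b, c)`, `a + b = c`, `a ≤ b` coprime,
all of whose odd primes belong to `S`.

* If `γ > 2/3` there are almost surely only finitely many of them.
* If `γ > 4/7`, almost surely all but finitely many of them satisfy `c < rad (abc) ^ (1 - γ + ε)`, for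
  all `ε > 0`: the abc conjecture is true for them, in a strong form.
* If `1/2 < γ < 2/3`, almost surely infinitely many of them satisfy `c ≥ rad (abc) ^ (1 - γ - ε)`, for
  all `ε > 0`. So for `4/7 < γ < 2/3` the limit superior of their qualities
  `log c / log rad (abc)` is almost surely equal to `1 - γ`.

The upper bound uses that at most `C X ^ (max (1 - M) (4/7) + ε)` abc triples with `rad (abc) ≤ X`,
of any height, satisfy `c ≥ rad (abc) ^ M`. The lower bound uses the second moment of the number of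
the triples `(2 q x + 1) + (2 q y + 1) = 2 (q (x + y) + 1)` with squarefree members.
-/

set_option autoImplicit false

namespace Pool.Agent.Results.MP_7aad9f_nt.RandomPrimeSets

open MeasureTheory ProbabilityTheory

/-- the abc triples `(a, b, a + b)`, written `(a, b)`, with `0 < a ≤ b` coprime -/
def IsTriple (t : ℕ × ℕ) : Prop := 0 < t.1 ∧ t.1 ≤ t.2 ∧ Nat.Coprime t.1 t.2

/-- the radical of `abc` for the triple `(a, b, a + b)` written `(a, b)` -/
def rad (t : ℕ × ℕ) : ℕ := ∏ p ∈ (t.1 * t.2 * (t.1 + t.2)).primeFactors, p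

/-- the event `E p` says that the prime `p` belongs to the random set: the events are measurable and
independent, and the event `E p` has the probability `p ^ (-γ)` -/
structure IsRandomSet {Ω : Type*} [MeasurableSpace Ω] (P : Measure Ω) (γ : ℝ) (E : ℕ → Set Ω) :
    Prop where
  measurable : ∀ p, MeasurableSet (E p)
  independent : iIndepSet E P
  prob : ∀ p : ℕ, p.Prime → P (E p) = ENNReal.ofReal ((p : ℝ) ^ (-γ))

/-- all the odd primes dividing `abc` belong to the random set, for the outcome `ω` -/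
def Supported {Ω : Type*} (E : ℕ → Set Ω) (ω : Ω) (t : ℕ × ℕ) : Prop :=
  ∀ p : ℕ, p.Prime → p ∣ t.1 * t.2 * (t.1 + t.2) → p = 2 ∨ ω ∈ E p

/-- **Theorem.** Let `(Ω, P)` be a probability space, and let `E p`, for the primes `p`, be independent
events of the probabilities `p ^ (-γ)`.

(i) If `γ > 2/3`, almost surely only finitely many abc triples are supported on the random set.

(ii) If `γ > 4/7`, almost surely for all `ε > 0` only finitely many of these triples satisfy
`rad (abc) ^ (1 - γ + ε) ≤ c`.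

(iii) If `1/2 < γ < 2/3`, almost surely for all `ε > 0` infinitely many of these triples satisfy
`rad (abc) ^ (1 - γ - ε) ≤ c`. -/
theorem result {Ω : Type*} [MeasurableSpace Ω] (P : Measure Ω) [IsProbabilityMeasure P] (γ : ℝ)
    (E : ℕ → Set Ω) (h : IsRandomSet P γ E) :
    (2 / 3 < γ → ∀ᵐ ω ∂P, {t : ℕ × ℕ | IsTriple t ∧ Supported E ω t}.Finite) ∧
    (4 / 7 < γ → ∀ᵐ ω ∂P, ∀ ε : ℝ, 0 < ε →
      {t : ℕ × ℕ | IsTriple t ∧ Supported E ω t ∧
        (rad t : ℝ) ^ (1 - γ + ε) ≤ ((t.1 + t.2 : ℕ) : ℝ)}.Finite) ∧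
    (1 / 2 < γ → γ < 2 / 3 → ∀ᵐ ω ∂P, ∀ ε : ℝ, 0 < ε →
      {t : ℕ × ℕ | IsTriple t ∧ Supported E ω t ∧
        (rad t : ℝ) ^ (1 - γ - ε) ≤ ((t.1 + t.2 : ℕ) : ℝ)}.Infinite) := by
  have hr1 : ∀ t : ℕ × ℕ, (1 : ℝ) ≤ (rad t : ℝ) := by
    intro t
    have : 1 ≤ rad t := Finset.prod_pos fun p hp => (Nat.prime_of_mem_primeFactors hp).pos
    exact_mod_cast this
  have part1 : 2 / 3 < γ → ∀ᵐ ω ∂P, {t : ℕ × ℕ | IsTriple t ∧ Supported E ω t}.Finite := by
    intro hγ
    obtain ⟨C, hC, hc⟩ := T2H21.RS.count_all (1 / 3) ((γ - 2 / 3) / 2) (by norm_num) (by linarith)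
    have hm : max (1 - (1 : ℝ) / 3) (4 / 7) = 2 / 3 := by norm_num
    rw [hm] at hc
    have := T2H21.RS.finite_ae P h.independent h.prob {t | T2H21.RS.IsT t} (fun t ht => ht)
      (θ := 2 / 3 + (γ - 2 / 3) / 2) (C := C) (by linarith) (by linarith)
      (fun X hX s hs => hc X hX s fun t ht => ⟨(hs t ht).1, (hs t ht).2, T2H21.RS.rad_cube (hs t ht).1⟩)
    exact this
  refine ⟨part1, fun hγ1 => ?_, fun hγ1 hγ2 => ?_⟩
  · rcases lt_or_ge (2 / 3) γ with hγ2 | hγ2
    · filter_upwards [part1 hγ2] with ω hω ε hε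
      exact hω.subset fun t ht => ⟨ht.1, ht.2.1⟩
    have key : ∀ n : ℕ, ∀ᵐ ω ∂P,
        {t : ℕ × ℕ | IsTriple t ∧ Supported E ω t ∧
          (rad t : ℝ) ^ (1 - γ + 1 / (n + 1 : ℝ)) ≤ ((t.1 + t.2 : ℕ) : ℝ)}.Finite := by
      intro n
      have hn : (0 : ℝ) < 1 / (n + 1 : ℝ) := by positivity
      set M : ℝ := 1 - γ + 1 / (n + 1 : ℝ) with hM
      set e : ℝ := (γ - max (1 - M) (4 / 7)) / 2 with he
      have hlt : max (1 - M) (4 / 7) < γ := max_lt (by rw [hM]; linarith) hγ1
      have he0 : 0 < e := by rw [he]; linarith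
      obtain ⟨C, hC, hc⟩ := T2H21.RS.count_all M e (by linarith) he0
      have h0 : (4 : ℝ) / 7 ≤ max (1 - M) (4 / 7) := le_max_right _ _
      have f1 := T2H21.RS.finite_ae P h.independent h.prob
        {t | T2H21.RS.IsT t ∧ (T2H21.RS.rad3 t : ℝ) ^ M ≤ ((t.1 + t.2 : ℕ) : ℝ)}
        (fun t ht => ht.1) (θ := max (1 - M) (4 / 7) + e) (C := C) (by linarith)
        (by rw [he]; linarith)
        (fun X hX s hs => hc X hX s fun t ht => ⟨(hs t ht).1.1, (hs t ht).2, (hs t ht).1.2⟩)
      filter_upwards [f1] with ω g1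
      refine g1.subset ?_
      rintro t ⟨a1, a2, a3⟩
      exact ⟨⟨a1, a3⟩, a2⟩
    rw [← ae_all_iff] at key
    filter_upwards [key] with ω hω ε hε
    obtain ⟨n, hn⟩ := exists_nat_one_div_lt hε
    refine (hω n).subset ?_
    rintro t ⟨a1, a2, a3⟩
    refine ⟨a1, a2, le_trans ?_ a3⟩
    exact Real.rpow_le_rpow_of_exponent_le (hr1 t) (by linarith)
  · have key : ∀ n : ℕ, ∀ᵐ ω ∂P,
        {t : ℕ × ℕ | IsTriple t ∧ Supported E ω t ∧
          (rad t : ℝ) ^ (1 - γ - 1 / (n + 1 : ℝ)) ≤ ((t.1 + t.2 : ℕ) : ℝ)}.Infinite := by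
      intro n
      have hn : (0 : ℝ) < 1 / (n + 1 : ℝ) := by positivity
      exact T2H21.RS.infinite_ae P h.measurable h.independent (by linarith) hγ2 h.prob
        (ρ := 1 - γ - 1 / (n + 1 : ℝ)) (by linarith)
    rw [← ae_all_iff] at key
    filter_upwards [key] with ω hω ε hε
    obtain ⟨n, hn⟩ := exists_nat_one_div_lt hε
    refine (hω n).mono ?_
    rintro t ⟨a1, a2, a3⟩
    refine ⟨a1, a2, le_trans ?_ a3⟩
    exact Real.rpow_le_rpow_of_exponent_le (hr1 t) (by linarith)

end Pool.Agent.Results.MP_7aad9f_nt.RandomPrimeSets
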